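import Pool.Agent.H74.G.R_seed8.Y368.CL.Tele

/-!
# Returns versus growth: bounds for the derivatives of the iterates
-/

open scoped Manifold ContDiff Topology
open Filter Set Metric

universe u

namespace Pool.Agent.Y368.CL

open Pool.Agent.H718R2.G Pool.Agent.W564.SC Pool.Agent.W509.SC

/-- bounds for the first two derivatives of the iterates in a chart -/
structure DerBd {n : ℕ} {N : Type u} [TopologicalSpace N] [ChartedSpace (V n) N] {r : ℕ∞}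
    (F : DiffM n N r) (χ : OpenPartialHomeomorph N (V n)) (m : ℕ) (Λ : ℝ) : Prop where
  h1 : ∀ i : ℤ, |i| ≤ 2 * m → ∀ y ∈ χ.source, ∀ y' ∈ χ.source, ‖χ y‖ ≤ 1 / 4 → ‖χ y'‖ ≤ 1 / 4 →
        ‖χ y - χ y'‖ ≤ Λ⁻¹ → it F i y ∈ χ.source → ‖χ (it F i y)‖ ≤ 1 / 4 →
        it F i y' ∈ χ.source ∧ ‖χ (it F i y) - χ (it F i y')‖ ≤ Λ * ‖χ y - χ y'‖
  h2 : ∀ i : ℤ, |i| ≤ 2 * m → ∀ y ∈ χ.source, ‖χ y‖ ≤ 1 / 8 → it F i y ∈ χ.source →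
        ‖χ (it F i y)‖ ≤ 1 / 4 → ∀ x ∈ ball (χ y) Λ⁻¹,
          DifferentiableAt ℝ (χ ∘ it F i ∘ χ.symm) x ∧
          ‖fderiv ℝ (χ ∘ it F i ∘ χ.symm) x‖ ≤ Λ ∧
          ‖fderiv ℝ (χ ∘ it F i ∘ χ.symm) x - fderiv ℝ (χ ∘ it F i ∘ χ.symm) (χ y)‖ ≤
            Λ * ‖x - χ y‖

/-- the growth hypothesis up to the time `2m` -/
def LipTo {n : ℕ} {N : Type u} [MetricSpace N] [ChartedSpace (V n) N] {r : ℕ∞}
    (F : DiffM n N r) (m : ℕ) (Γ : ℝ) : Prop :=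
  ∀ i ≤ 2 * m, ∀ x y, dist (F^[i] x) (F^[i] y) ≤ Γ * dist x y ∧
    dist (F.symm^[i] x) (F.symm^[i] y) ≤ Γ * dist x y

section

variable {n : ℕ} {N : Type u} [MetricSpace N] [CompactSpace N] [ChartedSpace (V n) N]
  [IsManifold (𝓡 n) ∞ N] {r : ℕ∞}

/-- numbers -/
theorem numsG {K ρ L δ Γ : ℝ} (hK : 1 ≤ K) (hρ : 0 < ρ) (hL : 1 ≤ L) (hδ : 0 < δ) (hΓ : 1 ≤ Γ)
    {m : ℕ} (hm : 1 ≤ m) {C₀ : ℝ}
    (hC : C₀ = 2 * K * L ^ 6 + L ^ 2 + 16 + 2 * L / δ + 2 * L ^ 2 / ρ) :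
    0 < C₀ * (m * Γ ^ 3) ∧ 16 ≤ C₀ * (m * Γ ^ 3) ∧ L ^ 2 * Γ ≤ C₀ * (m * Γ ^ 3) ∧
      (2 * m : ℝ) * ((L ^ 2 * Γ) * (K * (L * (Γ * L))) * (L ^ 2 * Γ)) ≤ C₀ * (m * Γ ^ 3) ∧
      Γ * (L * (C₀ * (m * Γ ^ 3))⁻¹) < δ ∧ L * (Γ * (L * (C₀ * (m * Γ ^ 3))⁻¹)) < ρ := by
  have hm1 : (1 : ℝ) ≤ m := by exact_mod_cast hm
  have hΓ2 : 1 ≤ Γ ^ 2 := one_le_pow₀ hΓ
  have hmΓ2 : 1 ≤ (m : ℝ) * Γ ^ 2 := by nlinarith
  have hΓ3 : 1 ≤ Γ ^ 3 := one_le_pow₀ hΓ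
  have hmΓ : 1 ≤ (m : ℝ) * Γ ^ 3 := by nlinarith
  have hΓ0 : 0 < Γ := by linarith
  have hL0 : 0 < L := by linarith
  have hK0 : 0 < K := by linarith
  have p1 : 0 < K * L ^ 6 := by positivity
  have p2 : 0 < L ^ 2 := by positivity
  have p3 : 0 < L / δ := by positivity
  have p4 : 0 < L ^ 2 / ρ := by positivity
  have hC0 : 0 < C₀ := by rw [hC]; positivity
  have hC16 : 16 ≤ C₀ := by
    rw [hC]
    have : 2 * L / δ = 2 * (L / δ) := by ring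
    have : 2 * L ^ 2 / ρ = 2 * (L ^ 2 / ρ) := by ring
    linarith
  have hCL : L ^ 2 ≤ C₀ := by
    rw [hC]
    have : 2 * L / δ = 2 * (L / δ) := by ring
    have : 2 * L ^ 2 / ρ = 2 * (L ^ 2 / ρ) := by ring
    linarith
  have hCK : 2 * K * L ^ 6 ≤ C₀ := by
    rw [hC]
    have : 2 * L / δ = 2 * (L / δ) := by ring
    have : 2 * L ^ 2 / ρ = 2 * (L ^ 2 / ρ) := by ring
    linarith
  have hCδ : L / δ < C₀ := by
    rw [hC]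
    have : 2 * L / δ = 2 * (L / δ) := by ring
    have : 2 * L ^ 2 / ρ = 2 * (L ^ 2 / ρ) := by ring
    linarith
  have hCρ : L ^ 2 / ρ < C₀ := by
    rw [hC]
    have : 2 * L / δ = 2 * (L / δ) := by ring
    have : 2 * L ^ 2 / ρ = 2 * (L ^ 2 / ρ) := by ring
    linarith
  have hΛ0 : 0 < C₀ * (m * Γ ^ 3) := by positivity
  have hΛ16 : C₀ ≤ C₀ * (m * Γ ^ 3) := by nlinarith
  refine ⟨hΛ0, hC16.trans hΛ16, ?_, ?_, ?_, ?_⟩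
  · have e1 : C₀ * (m * Γ ^ 3) = (C₀ * Γ) * (m * Γ ^ 2) := by ring
    have e2 : L ^ 2 * Γ ≤ C₀ * Γ := mul_le_mul_of_nonneg_right hCL hΓ0.le
    rw [e1]
    have : 0 < C₀ * Γ := by positivity
    nlinarith
  · have e1 : (2 * m : ℝ) * ((L ^ 2 * Γ) * (K * (L * (Γ * L))) * (L ^ 2 * Γ)) =
      (2 * K * L ^ 6) * (m * Γ ^ 3) := by ring
    rw [e1]
    exact mul_le_mul_of_nonneg_right hCK (by positivity)
  · have e1 : Γ * (L * (C₀ * (m * Γ ^ 3))⁻¹) = L / (C₀ * (m * Γ ^ 2)) := by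
      field_simp
    rw [e1, div_lt_iff₀ (by positivity)]
    rw [div_lt_iff₀ hδ] at hCδ
    have : 0 < δ * C₀ := by positivity
    nlinarith
  · have e1 : L * (Γ * (L * (C₀ * (m * Γ ^ 3))⁻¹)) = L ^ 2 / (C₀ * (m * Γ ^ 2)) := by
      field_simp
    rw [e1, div_lt_iff₀ (by positivity)]
    rw [div_lt_iff₀ hρ] at hCρ
    have : 0 < ρ * C₀ := by positivity
    nlinarith

theorem derBd (hr : 2 ≤ r) (hN : ChartLip n N) (F : DiffM n N r)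
    (χ : OpenPartialHomeomorph N (V n)) (z : N) (hχ : GoodChart n N χ z) :
    ∃ C₀ : ℝ, 16 ≤ C₀ ∧ ∀ m : ℕ, 1 ≤ m → ∀ Γ : ℝ, 1 ≤ Γ → LipTo F m Γ →
      DerBd F χ m (C₀ * (m * Γ ^ 3)) := by
  classical
  have hr1 : (1 : ℕ∞) ≤ r := le_trans (by norm_num) hr
  choose c₁ hc₁ using fun z : N => Pool.Agent.W699.SC.gc n N z
  -- a finite cover
  obtain ⟨t, ht⟩ := CompactSpace.elim_nhds_subcover
    (fun z : N => (c₁ z).source ∩ (c₁ z) ⁻¹' ball 0 (1 / 4)) (fun z => by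
      refine ((c₁ z).isOpen_inter_preimage isOpen_ball).mem_nhds ⟨(hc₁ z).src, ?_⟩
      rw [mem_preimage, (hc₁ z).zero]
      exact mem_ball_self (by norm_num))
  obtain ⟨c, hcd⟩ : ∃ c : Option N → OpenPartialHomeomorph N (V n),
    c = fun b => match b with | none => χ | some b => c₁ b := ⟨_, rfl⟩
  obtain ⟨zc, hzc⟩ : ∃ zc : Option N → N,
    zc = fun b => match b with | none => z | some b => b := ⟨_, rfl⟩
  have hcn : c none = χ := by rw [hcd]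
  have hc : ∀ b, GoodChart n N (c b) (zc b) := by
    intro b
    rw [hcd, hzc]
    cases b with
    | none => exact hχ
    | some b => exact hc₁ b
  obtain ⟨T, hT⟩ : ∃ T : Finset (Option N), T = insert none (t.image some) := ⟨_, rfl⟩
  have hnT : none ∈ T := by rw [hT]; exact Finset.mem_insert_self _ _
  have hcov : ∀ y, ∃ b ∈ T, y ∈ (c b).source ∧ ‖c b y‖ ≤ 1 / 4 := by
    intro y
    have hy : y ∈ (⊤ : Set N) := mem_univ y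
    rw [← ht, mem_iUnion₂] at hy
    obtain ⟨b, hb, h3, h4⟩ := hy
    rw [mem_preimage, mem_ball_zero_iff] at h4
    refine ⟨some b, ?_, ?_, ?_⟩
    · rw [hT]
      exact Finset.mem_insert_of_mem (Finset.mem_image_of_mem _ hb)
    · rw [hcd]; exact h3
    · rw [hcd]; exact h4.le
  -- constants of the steps
  have hsteps : ∀ G : DiffM n N r, ∃ K ρ : ℝ, 1 ≤ K ∧ 0 < ρ ∧ ∀ b ∈ T, ∀ b' ∈ T,
      ∀ y ∈ (c b).source, ‖c b y‖ ≤ 1 / 4 → G y ∈ (c b').source → ‖c b' (G y)‖ ≤ 1 / 4 →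
        TT n N K K ρ (c b) (c b') G y := by
    intro G
    obtain ⟨K, ρ, hK, hρ, hs⟩ := unif (T ×ˢ T) (fun p K ρ => ∀ y ∈ (c p.1).source,
      ‖c p.1 y‖ ≤ 1 / 4 → G y ∈ (c p.2).source → ‖c p.2 (G y)‖ ≤ 1 / 4 →
        TT n N K K ρ (c p.1) (c p.2) G y) (fun p _ => by
        obtain ⟨K, ρ, hK, hρ, hs⟩ := tt_of_step Pool.Agent.W451.SC.step hr G (c p.1) (c p.2)
          (zc p.1) (zc p.2) (hc p.1) (hc p.2)
        exact ⟨K, ρ, hK, hρ, fun y h3 h4 h5 h6 => hs y h3 (by linarith) h5 (by linarith)⟩)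
      (fun p K K' ρ ρ' hs hK hρ y h3 h4 h5 h6 => (hs y h3 h4 h5 h6).mono hK hK hρ)
    exact ⟨K, ρ, hK, hρ, fun b hb b' hb' => hs (b, b') (Finset.mem_product.2 ⟨hb, hb'⟩)⟩
  obtain ⟨K₁, ρ₁, hK₁, hρ₁, hs₁⟩ := hsteps F
  obtain ⟨K₂, ρ₂, hK₂, hρ₂, hs₂⟩ := hsteps F.symm
  obtain ⟨K, hKd⟩ : ∃ K : ℝ, K = max K₁ K₂ := ⟨_, rfl⟩
  obtain ⟨ρ, hρd⟩ : ∃ ρ : ℝ, ρ = min ρ₁ ρ₂ := ⟨_, rfl⟩
  have hK : 1 ≤ K := by rw [hKd]; exact le_max_of_le_left hK₁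
  have hρ : 0 < ρ := by rw [hρd]; exact lt_min hρ₁ hρ₂
  have hsF : ∀ b ∈ T, ∀ b' ∈ T, ∀ y ∈ (c b).source, ‖c b y‖ ≤ 1 / 4 → F y ∈ (c b').source →
      ‖c b' (F y)‖ ≤ 1 / 4 → TT n N K K ρ (c b) (c b') F y :=
    fun b hb b' hb' y h3 h4 h5 h6 => (hs₁ b hb b' hb' y h3 h4 h5 h6).mono
      (by rw [hKd]; exact le_max_left _ _) (by rw [hKd]; exact le_max_left _ _)
      (by rw [hρd]; exact min_le_left _ _)
  have hsF' : ∀ b ∈ T, ∀ b' ∈ T, ∀ y ∈ (c b).source, ‖c b y‖ ≤ 1 / 4 →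
      F.symm y ∈ (c b').source → ‖c b' (F.symm y)‖ ≤ 1 / 4 →
      TT n N K K ρ (c b) (c b') F.symm y :=
    fun b hb b' hb' y h3 h4 h5 h6 => (hs₂ b hb b' hb' y h3 h4 h5 h6).mono
      (by rw [hKd]; exact le_max_right _ _) (by rw [hKd]; exact le_max_right _ _)
      (by rw [hρd]; exact min_le_right _ _)
  -- the constants of the distance
  obtain ⟨L, δ, hL, hδ, hLδ⟩ := unif T (fun b L δ =>
      (∀ y ∈ (c b).source, ∀ y' ∈ (c b).source, ‖c b y‖ ≤ 1 / 2 → ‖c b y'‖ ≤ 1 / 2 →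
        dist y y' ≤ L * ‖c b y - c b y'‖ ∧ ‖c b y - c b y'‖ ≤ L * dist y y') ∧
      (∀ y ∈ (c b).source, ‖c b y‖ ≤ 1 / 4 → ∀ y', dist y y' < δ →
        y' ∈ (c b).source ∧ ‖c b y'‖ < 1 / 2)) (fun b _ => by
      obtain ⟨L, hL, h3⟩ := hN (c b) (zc b) (hc b)
      obtain ⟨δ, hδ, h4⟩ := unif_close (hc b)
      refine ⟨max 1 L, δ, le_max_left _ _, hδ, ?_, h4⟩
      intro y hy y' hy' h5 h6
      obtain ⟨h7, h8⟩ := h3 y hy y' hy' h5 h6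
      exact ⟨h7.trans (mul_le_mul_of_nonneg_right (le_max_right _ _) (norm_nonneg _)),
        h8.trans (mul_le_mul_of_nonneg_right (le_max_right _ _) dist_nonneg)⟩)
    (fun b L L' δ δ' h hL hδ => ⟨fun y hy y' hy' h5 h6 =>
      ⟨(h.1 y hy y' hy' h5 h6).1.trans (mul_le_mul_of_nonneg_right hL (norm_nonneg _)),
        (h.1 y hy y' hy' h5 h6).2.trans (mul_le_mul_of_nonneg_right hL dist_nonneg)⟩,
      fun y hy h5 y' h6 => h.2 y hy h5 y' (h6.trans_le hδ)⟩)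
  have hK0 : 0 < K := by linarith
  have hL0 : 0 < L := by linarith
  obtain ⟨C₀, hC₀⟩ : ∃ C₀ : ℝ, C₀ = 2 * K * L ^ 6 + L ^ 2 + 16 + 2 * L / δ + 2 * L ^ 2 / ρ :=
    ⟨_, rfl⟩
  have hC16 : 16 ≤ C₀ := by
    rw [hC₀]
    have : 0 < 2 * K * L ^ 6 + L ^ 2 + 2 * L / δ + 2 * L ^ 2 / ρ := by positivity
    linarith
  -- the estimate for natural iterates
  have hnat : ∀ G : DiffM n N r, (∀ b ∈ T, ∀ b' ∈ T,
      ∀ y ∈ (c b).source, ‖c b y‖ ≤ 1 / 4 → G y ∈ (c b').source → ‖c b' (G y)‖ ≤ 1 / 4 →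
        TT n N K K ρ (c b) (c b') G y) → ∀ m : ℕ, 1 ≤ m → ∀ Γ : ℝ, 1 ≤ Γ → ∀ l : ℕ, l ≤ 2 * m →
      (∀ i ≤ l, ∀ x y, dist (G^[i] x) (G^[i] y) ≤ Γ * dist x y) →
      ∀ y ∈ χ.source, ∀ y' ∈ χ.source, ‖χ y‖ ≤ 1 / 4 → ‖χ y'‖ ≤ 1 / 4 →
      ‖χ y - χ y'‖ ≤ (C₀ * (m * Γ ^ 3))⁻¹ → G^[l] y ∈ χ.source → ‖χ (G^[l] y)‖ ≤ 1 / 4 →
      G^[l] y' ∈ χ.source ∧ ‖χ (G^[l] y) - χ (G^[l] y')‖ ≤ (C₀ * (m * Γ ^ 3)) * ‖χ y - χ y'‖ ∧
        DifferentiableAt ℝ (χ ∘ G^[l] ∘ χ.symm) (χ y') ∧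
        ‖fderiv ℝ (χ ∘ G^[l] ∘ χ.symm) (χ y')‖ ≤ C₀ * (m * Γ ^ 3) ∧
        ‖fderiv ℝ (χ ∘ G^[l] ∘ χ.symm) (χ y') - fderiv ℝ (χ ∘ G^[l] ∘ χ.symm) (χ y)‖ ≤
          (C₀ * (m * Γ ^ 3)) * ‖χ y' - χ y‖ := by
    intro G hG m hm Γ hΓ l hl hGL y hy y' hy' hy4 hy4' hyy hly hly4
    obtain ⟨n1, n2, n3, n4, n5, n6⟩ := numsG hK hρ hL hδ hΓ hm hC₀
    obtain ⟨Λ, hΛ⟩ : ∃ Λ : ℝ, Λ = C₀ * (m * Γ ^ 3) := ⟨_, rfl⟩
    rw [← hΛ] at n1 n2 n3 n4 n5 n6 hyy ⊢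
    have hΓ0 : 0 < Γ := by linarith
    obtain ⟨hL1, hcl⟩ := hLδ none hnT
    rw [hcn] at hL1 hcl
    have hd : dist y y' ≤ L * ‖χ y - χ y'‖ :=
      (hL1 y hy y' hy' (by linarith) (by linarith)).1
    have hd2 : dist y y' ≤ L * Λ⁻¹ := hd.trans (mul_le_mul_of_nonneg_left hyy hL0.le)
    have hd3 : Γ * dist y y' < δ :=
      lt_of_le_of_lt (mul_le_mul_of_nonneg_left hd2 hΓ0.le) n5
    have hd4 : L * (Γ * dist y y') < ρ :=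
      lt_of_le_of_lt (mul_le_mul_of_nonneg_left (mul_le_mul_of_nonneg_left hd2 hΓ0.le) hL0.le) n6
    have hdl := hGL l le_rfl y y'
    obtain ⟨q1, q2⟩ := hcl _ hly hly4 (G^[l] y') (lt_of_le_of_lt hdl hd3)
    have hL3 := (hL1 _ hly _ q1 (by linarith) q2.le).2
    have hGc : Continuous G := G.continuous
    refine ⟨q1, ?_, ?_, ?_, ?_⟩
    · calc ‖χ (G^[l] y) - χ (G^[l] y')‖ ≤ L * (Γ * (L * ‖χ y - χ y'‖)) := by
            refine hL3.trans (mul_le_mul_of_nonneg_left ?_ hL0.le)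
            exact hdl.trans (mul_le_mul_of_nonneg_left hd hΓ0.le)
        _ = (L ^ 2 * Γ) * ‖χ y - χ y'‖ := by ring
        _ ≤ Λ * ‖χ y - χ y'‖ := mul_le_mul_of_nonneg_right n3 (norm_nonneg _)
    · refine diff_charts hr1 _ (iter_contMDiff G l) hχ.mem hχ.mem (χ.map_source hy') ?_
      rw [χ.left_inv hy']
      exact q1
    · refine (bd_charts G^[l] (hGc.iterate l) hΓ0.le hL0 (hGL l le_rfl) hL1 hL1
        (χ.map_source hy') (by linarith) ?_ ?_).trans n3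
      · rw [χ.left_inv hy']
        exact q1
      · rw [χ.left_inv hy']
        exact q2
    · have h3 := tele hr1 T c zc hc hcov G K ρ L δ Γ hK0 hL0 hΓ0 hG
        (fun b hb => (hLδ b hb).1) (fun b hb => (hLδ b hb).2) l hGL none hnT y y'
        (by rw [hcn]; exact hy) (by rw [hcn]; exact hy4) (by rw [hcn]; exact hly)
        (by rw [hcn]; exact hly4) hd3 hd4
      rw [hcn] at h3
      refine h3.trans ?_
      have hl2 : (l : ℝ) ≤ 2 * m := by exact_mod_cast hl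
      calc (l : ℝ) * (L ^ 2 * Γ * (K * (L * (Γ * dist y y'))) * (L ^ 2 * Γ)) ≤
          (2 * m : ℝ) * (L ^ 2 * Γ * (K * (L * (Γ * (L * ‖χ y - χ y'‖)))) * (L ^ 2 * Γ)) := by
            refine mul_le_mul hl2 ?_ (by positivity) (by positivity)
            refine mul_le_mul_of_nonneg_right ?_ (by positivity)
            refine mul_le_mul_of_nonneg_left ?_ (by positivity)
            refine mul_le_mul_of_nonneg_left ?_ hK0.le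
            refine mul_le_mul_of_nonneg_left ?_ hL0.le
            exact mul_le_mul_of_nonneg_left hd hΓ0.le
        _ = (2 * m : ℝ) * (L ^ 2 * Γ * (K * (L * (Γ * L))) * (L ^ 2 * Γ)) * ‖χ y - χ y'‖ := by ring
        _ ≤ Λ * ‖χ y - χ y'‖ := mul_le_mul_of_nonneg_right n4 (norm_nonneg _)
        _ = Λ * ‖χ y' - χ y‖ := by rw [norm_sub_rev]
  refine ⟨C₀, hC16, ?_⟩
  intro m hm Γ hΓ hLT
  have hint : ∀ i : ℤ, |i| ≤ 2 * m → ∀ y ∈ χ.source, ∀ y' ∈ χ.source, ‖χ y‖ ≤ 1 / 4 →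
      ‖χ y'‖ ≤ 1 / 4 → ‖χ y - χ y'‖ ≤ (C₀ * (m * Γ ^ 3))⁻¹ → it F i y ∈ χ.source →
      ‖χ (it F i y)‖ ≤ 1 / 4 →
      it F i y' ∈ χ.source ∧ ‖χ (it F i y) - χ (it F i y')‖ ≤ (C₀ * (m * Γ ^ 3)) * ‖χ y - χ y'‖ ∧
        DifferentiableAt ℝ (χ ∘ it F i ∘ χ.symm) (χ y') ∧
        ‖fderiv ℝ (χ ∘ it F i ∘ χ.symm) (χ y')‖ ≤ C₀ * (m * Γ ^ 3) ∧
        ‖fderiv ℝ (χ ∘ it F i ∘ χ.symm) (χ y') - fderiv ℝ (χ ∘ it F i ∘ χ.symm) (χ y)‖ ≤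
          (C₀ * (m * Γ ^ 3)) * ‖χ y' - χ y‖ := by
    intro i hi y hy y' hy' hy4 hy4' hyy hiy hiy4
    obtain ⟨l, hl | hl⟩ := Int.eq_nat_or_neg i
    · subst hl
      have hl2 : l ≤ 2 * m := by
        rw [Nat.abs_cast] at hi
        exact_mod_cast hi
      have e := it_nat F l
      rw [e] at hiy hiy4 ⊢
      exact hnat F hsF m hm Γ hΓ l hl2 (fun i hi x y => (hLT i (hi.trans hl2) x y).1) y hy y' hy'
        hy4 hy4' hyy hiy hiy4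
    · subst hl
      have hl2 : l ≤ 2 * m := by
        rw [abs_neg, Nat.abs_cast] at hi
        exact_mod_cast hi
      have e := it_neg F l
      rw [e] at hiy hiy4 ⊢
      exact hnat F.symm hsF' m hm Γ hΓ l hl2 (fun i hi x y => (hLT i (hi.trans hl2) x y).2) y hy
        y' hy' hy4 hy4' hyy hiy hiy4
  obtain ⟨n1, n2, n3, n4, n5, n6⟩ := numsG hK hρ hL hδ hΓ hm hC₀
  refine ⟨?_, ?_⟩
  · intro i hi y hy y' hy' hy4 hy4' hyy hiy hiy4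
    obtain ⟨a1, a2, -⟩ := hint i hi y hy y' hy' hy4 hy4' hyy hiy hiy4
    exact ⟨a1, a2⟩
  · intro i hi y hy hy8 hiy hiy4 x hx
    rw [mem_ball_iff_norm] at hx
    have hinv : (C₀ * (m * Γ ^ 3))⁻¹ ≤ 1 / 16 := by
      rw [one_div]
      exact inv_anti₀ (by norm_num) n2
    have hx4 : ‖x‖ ≤ 1 / 4 := by
      have : x = (x - χ y) + χ y := by abel
      rw [this]
      refine (norm_add_le _ _).trans ?_
      linarith
    have hxt : x ∈ χ.target := by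
      refine hχ.ball (mem_closedBall_zero_iff.2 ?_)
      linarith
    have hxy : χ (χ.symm x) = x := χ.right_inv hxt
    obtain ⟨-, -, a3, a4, a5⟩ := hint i hi y hy (χ.symm x) (χ.map_target hxt) (by linarith)
      (by rw [hxy]; exact hx4) (by rw [hxy, norm_sub_rev]; exact hx.le) hiy hiy4
    rw [hxy] at a3 a4 a5
    exact ⟨a3, a4, a5⟩

end

end Pool.Agent.Y368.CL
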