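import Pool.Agent.H74.G.R_seed8.W564.SC.LibE

/-!
# Returns versus growth: metric tools

Bounds for the derivatives of iterates in good charts from Lipschitz bounds of the iterates.
-/

open scoped Manifold ContDiff Topology
open Filter Set Metric

universe u

namespace Pool.Agent.Y368.CL

open Pool.Agent.H718R2.G Pool.Agent.W564.SC Pool.Agent.W509.SC

/-- The distance of `N` is compatible with its smooth structure: good charts are bi-Lipschitz on the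
ball of radius `1/2` (for instance a Riemannian distance). -/
def ChartLip (n : ℕ) (N : Type*) [MetricSpace N] [ChartedSpace (V n) N] : Prop :=
  ∀ (χ : OpenPartialHomeomorph N (V n)) (z : N), GoodChart n N χ z → ∃ L : ℝ, 0 < L ∧
    ∀ y ∈ χ.source, ∀ y' ∈ χ.source, ‖χ y‖ ≤ 1 / 2 → ‖χ y'‖ ≤ 1 / 2 →
      dist y y' ≤ L * ‖χ y - χ y'‖ ∧ ‖χ y - χ y'‖ ≤ L * dist y y'

section

variable {n : ℕ} {N : Type u} [MetricSpace N] [ChartedSpace (V n) N] {r : ℕ∞}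

/-- differentiability in charts -/
theorem diff_charts [IsManifold (𝓡 n) ∞ N] (hr : 1 ≤ r) (G : N → N)
    (hG : ContMDiff (𝓡 n) (𝓡 n) r G)
    {χ₁ χ₂ : OpenPartialHomeomorph N (V n)} (h₁ : χ₁ ∈ IsManifold.maximalAtlas (𝓡 n) ∞ N)
    (h₂ : χ₂ ∈ IsManifold.maximalAtlas (𝓡 n) ∞ N) {x : V n} (hx : x ∈ χ₁.target)
    (hGx : G (χ₁.symm x) ∈ χ₂.source) : DifferentiableAt ℝ (χ₂ ∘ G ∘ χ₁.symm) x := by
  have h : ContDiffAt ℝ 1 (χ₂ ∘ G ∘ χ₁.symm) x := by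
    rw [← contMDiffAt_iff_contDiffAt]
    have m1 : ContMDiffAt (𝓡 n) (𝓡 n) 1 χ₁.symm x :=
      ((contMDiffOn_symm_of_mem_maximalAtlas h₁).contMDiffAt
        (χ₁.open_target.mem_nhds hx)).of_le (by norm_cast)
    have m2 : ContMDiffAt (𝓡 n) (𝓡 n) 1 G (χ₁.symm x) :=
      (hG.contMDiffAt).of_le
        (show ((1 : ℕ∞) : WithTop ℕ∞) ≤ (r : WithTop ℕ∞) from WithTop.coe_le_coe.mpr hr)
    have m3 : ContMDiffAt (𝓡 n) (𝓡 n) 1 χ₂ (G (χ₁.symm x)) :=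
      ((contMDiffOn_of_mem_maximalAtlas h₂).contMDiffAt
        (χ₂.open_source.mem_nhds hGx)).of_le (by norm_cast)
    exact m3.comp x (m2.comp x m1)
  exact h.differentiableAt (by norm_num)

omit [ChartedSpace (V n) N] in
/-- the chain rule in charts -/
theorem chain_charts (G₁ G₂ : N → N) (hG₁ : Continuous G₁)
    {χ₁ χ₂ χ₃ : OpenPartialHomeomorph N (V n)} {x : V n} (hx : x ∈ χ₁.target)
    (hx2 : G₁ (χ₁.symm x) ∈ χ₂.source)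
    (hd1 : DifferentiableAt ℝ (χ₂ ∘ G₁ ∘ χ₁.symm) x)
    (hd2 : DifferentiableAt ℝ (χ₃ ∘ G₂ ∘ χ₂.symm) (χ₂ (G₁ (χ₁.symm x)))) :
    fderiv ℝ (χ₃ ∘ (G₂ ∘ G₁) ∘ χ₁.symm) x =
      (fderiv ℝ (χ₃ ∘ G₂ ∘ χ₂.symm) (χ₂ (G₁ (χ₁.symm x)))).comp
        (fderiv ℝ (χ₂ ∘ G₁ ∘ χ₁.symm) x) := by
  have hev : (χ₃ ∘ (G₂ ∘ G₁) ∘ χ₁.symm) =ᶠ[𝓝 x] (χ₃ ∘ G₂ ∘ χ₂.symm) ∘ (χ₂ ∘ G₁ ∘ χ₁.symm) := by
    have hc : ContinuousAt (G₁ ∘ χ₁.symm) x :=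
      hG₁.continuousAt.comp (χ₁.continuousAt_symm hx)
    have hs : (G₁ ∘ χ₁.symm) ⁻¹' χ₂.source ∈ 𝓝 x :=
      hc.preimage_mem_nhds (χ₂.open_source.mem_nhds hx2)
    filter_upwards [hs] with x' hx'
    simp only [Function.comp, mem_preimage] at hx' ⊢
    rw [χ₂.left_inv hx']
  rw [hev.fderiv_eq]
  exact fderiv_comp x hd2 hd1

/-- bound of the derivative in charts -/
theorem bd_charts (G : N → N) (hG : Continuous G) {Γ L : ℝ} (hΓ0 : 0 ≤ Γ) (hL : 0 < L)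
    (hΓ : ∀ x y, dist (G x) (G y) ≤ Γ * dist x y)
    {χ₁ χ₂ : OpenPartialHomeomorph N (V n)}
    (hL1 : ∀ y ∈ χ₁.source, ∀ y' ∈ χ₁.source, ‖χ₁ y‖ ≤ 1 / 2 → ‖χ₁ y'‖ ≤ 1 / 2 →
      dist y y' ≤ L * ‖χ₁ y - χ₁ y'‖ ∧ ‖χ₁ y - χ₁ y'‖ ≤ L * dist y y')
    (hL2 : ∀ y ∈ χ₂.source, ∀ y' ∈ χ₂.source, ‖χ₂ y‖ ≤ 1 / 2 → ‖χ₂ y'‖ ≤ 1 / 2 →
      dist y y' ≤ L * ‖χ₂ y - χ₂ y'‖ ∧ ‖χ₂ y - χ₂ y'‖ ≤ L * dist y y')
    {x : V n} (hx : x ∈ χ₁.target) (hx2 : ‖x‖ < 1 / 2)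
    (hGx : G (χ₁.symm x) ∈ χ₂.source) (hGx2 : ‖χ₂ (G (χ₁.symm x))‖ < 1 / 2) :
    ‖fderiv ℝ (χ₂ ∘ G ∘ χ₁.symm) x‖ ≤ L ^ 2 * Γ := by
  have hc : ContinuousAt (G ∘ χ₁.symm) x :=
    hG.continuousAt.comp (χ₁.continuousAt_symm hx)
  have hs : (G ∘ χ₁.symm) ⁻¹' χ₂.source ∈ 𝓝 x :=
    hc.preimage_mem_nhds (χ₂.open_source.mem_nhds hGx)
  have hc2 : ContinuousAt (χ₂ ∘ (G ∘ χ₁.symm)) x :=
    ContinuousAt.comp (g := χ₂) (f := G ∘ χ₁.symm) (χ₂.continuousAt hGx) hc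
  have hs2 : ∀ᶠ x' in 𝓝 x, ‖χ₂ (G (χ₁.symm x'))‖ < 1 / 2 :=
    hc2.norm.eventually_lt_const hGx2
  have hs3 : ∀ᶠ x' in 𝓝 x, ‖x'‖ < 1 / 2 := continuousAt_id.norm.eventually_lt_const hx2
  have hs4 : χ₁.target ∈ 𝓝 x := χ₁.open_target.mem_nhds hx
  refine norm_fderiv_le_of_lip' ℝ (by positivity) ?_
  filter_upwards [hs, hs2, hs3, hs4] with x' h1 h2 h3 h4
  simp only [Function.comp, mem_preimage] at h1 ⊢
  have e1 := (hL2 _ h1 _ hGx h2.le hGx2.le).2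
  have e2 := hΓ (χ₁.symm x') (χ₁.symm x)
  have e3 := (hL1 (χ₁.symm x') (χ₁.map_target h4) (χ₁.symm x) (χ₁.map_target hx)
    (by rw [χ₁.right_inv h4]; exact h3.le) (by rw [χ₁.right_inv hx]; exact hx2.le)).1
  rw [χ₁.right_inv h4, χ₁.right_inv hx] at e3
  calc _ ≤ L * dist (G (χ₁.symm x')) (G (χ₁.symm x)) := e1
    _ ≤ L * (Γ * dist (χ₁.symm x') (χ₁.symm x)) := mul_le_mul_of_nonneg_left e2 hL.le
    _ ≤ L * (Γ * (L * ‖x' - x‖)) := by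
        refine mul_le_mul_of_nonneg_left ?_ hL.le
        exact mul_le_mul_of_nonneg_left e3 hΓ0
    _ = L ^ 2 * Γ * ‖x' - x‖ := by ring

/-- points close to the ball of radius `1/4` of a good chart are in the domain -/
theorem unif_close [CompactSpace N] {χ : OpenPartialHomeomorph N (V n)} {z : N}
    (hχ : GoodChart n N χ z) :
    ∃ δ : ℝ, 0 < δ ∧ ∀ y ∈ χ.source, ‖χ y‖ ≤ 1 / 4 → ∀ y', dist y y' < δ →
      y' ∈ χ.source ∧ ‖χ y'‖ < 1 / 2 := by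
  have hsub : closedBall (0 : V n) (1 / 4) ⊆ χ.target :=
    (closedBall_subset_closedBall (by norm_num)).trans hχ.ball
  have hK : IsCompact (χ.symm '' closedBall (0 : V n) (1 / 4)) :=
    (isCompact_closedBall _ _).image_of_continuousOn (χ.continuousOn_symm.mono hsub)
  have hO : IsOpen (χ.source ∩ χ ⁻¹' ball (0 : V n) (1 / 2)) :=
    χ.isOpen_inter_preimage isOpen_ball
  have hKO : χ.symm '' closedBall (0 : V n) (1 / 4) ⊆ χ.source ∩ χ ⁻¹' ball (0 : V n) (1 / 2) := by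
    rintro y ⟨x, hx, rfl⟩
    refine ⟨χ.map_target (hsub hx), ?_⟩
    rw [mem_preimage, χ.right_inv (hsub hx), mem_ball_zero_iff]
    have := mem_closedBall_zero_iff.1 hx
    linarith
  obtain ⟨δ, hδ, h⟩ := hK.exists_thickening_subset_open hO hKO
  refine ⟨δ, hδ, ?_⟩
  intro y hy hy4 y' hyy'
  have h1 : y' ∈ thickening δ (χ.symm '' closedBall (0 : V n) (1 / 4)) := by
    rw [mem_thickening_iff]
    refine ⟨y, ⟨χ y, mem_closedBall_zero_iff.2 hy4, χ.left_inv hy⟩, ?_⟩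
    rw [dist_comm]
    exact hyy'
  obtain ⟨h2, h3⟩ := h h1
  refine ⟨h2, ?_⟩
  rwa [mem_preimage, mem_ball_zero_iff] at h3

end

end Pool.Agent.Y368.CL
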